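import Mathlib

namespace Pool.Agent.Results.MP_aad82b_nt.LastDigitNine

/-- A solution: an integer `n ≥ 2` with `n ∣ 2 ^ (n - 2) - 1`. -/
def IsSolution (n : ℕ) : Prop := 2 ≤ n ∧ n ∣ 2 ^ (n - 2) - 1

/-- If `2 ^ L ≡ 1` modulo `n` and `L ∣ n - 2`, then `n ∣ 2 ^ (n - 2) - 1`. -/
lemma dvd_of_order (n L k : ℕ) (h : 2 ^ L ≡ 1 [MOD n]) (hk : n - 2 = L * k) :
    n ∣ 2 ^ (n - 2) - 1 := by
  have h1 : 2 ^ (n - 2) ≡ 1 [MOD n] := by
    rw [hk, pow_mul]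
    have h3 := h.pow k
    rwa [one_pow] at h3
  exact (Nat.modEq_iff_dvd' Nat.one_le_two_pow).mp h1.symm

/-- `2 ^ 1131 ≡ 1` modulo `12193861799 = 7 · 79 · 4177 · 5279`. -/
lemma base : 2 ^ 1131 ≡ 1 [MOD 12193861799] := by
  decide +kernel

/-- There is a solution with last decimal digit `9`, namely
`12193861799 = 7 · 79 · 4177 · 5279`. -/
theorem result : ∃ n : ℕ, IsSolution n ∧ n % 10 = 9 :=
  ⟨12193861799, ⟨by norm_num, dvd_of_order _ 1131 10781487 base (by norm_num)⟩, by norm_num⟩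

end Pool.Agent.Results.MP_aad82b_nt.LastDigitNine
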